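import Pool.Agent.N483.KM.StmZ
import Pool.Agent.N438.KM.LWC
import Pool.Agent.N383.KM.Wse
import Pool.Agent.H212R2.KLS.T1

/-!
# The section of a log-concave weight over the barycentre (for helper483)

`bary`: a log-concave function `m` on a space of dimension `d` is at most `exp d` times its value
at its barycentre. `t_WBR`: the same for the masses of the sections of a weight.
-/

set_option autoImplicit false

namespace Pool.Agent.N482.KM

open MeasureTheory Set Filter Topology Metric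
open scoped ENNReal InnerProductSpace

/-! ### a log-concave function at its barycentre -/

section abs

variable {V : Type*} [NormedAddCommGroup V] [InnerProductSpace ℝ V] [FiniteDimensional ℝ V]
  [MeasurableSpace V] [BorelSpace V]

/-- the open hypograph of the logarithm -/
def hyp (m : V → ℝ) : Set (V × ℝ) := {z | Real.exp z.2 < m z.1}

omit [FiniteDimensional ℝ V] [MeasurableSpace V] [BorelSpace V] in
theorem hyp_convex {m : V → ℝ}
    (hlc : ∀ x y, ∀ s : ℝ, 0 < s → s < 1 → m x ^ (1 - s) * m y ^ s ≤ m ((1 - s) • x + s • y)) :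
    Convex ℝ (hyp m) := by
  intro z hz y hy a b ha hb hab
  have hz' : Real.exp z.2 < m z.1 := hz
  have hy' : Real.exp y.2 < m y.1 := hy
  have ha' : a = 1 - b := by linarith
  subst ha'
  rcases eq_or_lt_of_le hb with hb0 | hb0
  · rw [← hb0, sub_zero, one_smul, zero_smul, add_zero]
    exact hz
  rcases eq_or_lt_of_le ha with ha0 | ha0
  · have : b = 1 := by linarith
    rw [this, sub_self, zero_smul, one_smul, zero_add]
    exact hy
  show Real.exp ((1 - b) * z.2 + b * y.2) < m ((1 - b) • z.1 + b • y.1)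
  refine lt_of_lt_of_le ?_ (hlc z.1 y.1 b hb0 (by linarith))
  have h1 : Real.exp ((1 - b) * z.2 + b * y.2) =
      Real.exp z.2 ^ (1 - b) * Real.exp y.2 ^ b := by
    rw [← Real.exp_mul, ← Real.exp_mul, ← Real.exp_add]
    congr 1
    ring
  rw [h1]
  exact mul_lt_mul'' (Real.rpow_lt_rpow (Real.exp_pos _).le hz' ha0)
    (Real.rpow_lt_rpow (Real.exp_pos _).le hy' hb0) (Real.rpow_nonneg (Real.exp_pos _).le _)
    (Real.rpow_nonneg (Real.exp_pos _).le _)

theorem exists_level {μ : Measure V} [μ.IsAddHaarMeasure] {m : V → ℝ} (h0 : ∀ x, 0 ≤ m x)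
    (hp : 0 < ∫ x, m x ∂μ)
    (hlc : ∀ x y, ∀ s : ℝ, 0 < s → s < 1 → m x ^ (1 - s) * m y ^ s ≤ m ((1 - s) • x + s • y)) :
    ∃ c : ℝ, 0 < c ∧ (interior {x | c < m x}).Nonempty := by
  obtain ⟨c0, hc0, hpos⟩ : ∃ c0 : ℝ, 0 < c0 ∧ μ {x | c0 < m x} ≠ 0 := by
    by_contra hcon
    push Not at hcon
    have h1 : μ (⋃ k : ℕ, {x | 1 / ((k : ℝ) + 1) < m x}) = 0 :=
      measure_iUnion_null fun k => hcon _ (by positivity)
    have h2 : m =ᵐ[μ] 0 := by
      rw [Filter.EventuallyEq, ae_iff]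
      refine measure_mono_null (fun x hx => ?_) h1
      have h3 : 0 < m x := lt_of_le_of_ne (h0 x) (Ne.symm hx)
      obtain ⟨k, hk⟩ := exists_nat_one_div_lt h3
      exact mem_iUnion.2 ⟨k, hk⟩
    rw [integral_eq_zero_of_ae h2] at hp
    exact lt_irrefl _ hp
  refine ⟨c0, hc0, ?_⟩
  have hcv : Convex ℝ {x | c0 < m x} := by
    intro x hx y hy a b ha hb hab
    have hx' : (x, Real.log c0) ∈ hyp m := by
      show Real.exp (Real.log c0) < m x
      rw [Real.exp_log hc0]
      exact hx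
    have hy' : (y, Real.log c0) ∈ hyp m := by
      show Real.exp (Real.log c0) < m y
      rw [Real.exp_log hc0]
      exact hy
    have h1 : Real.exp (a * Real.log c0 + b * Real.log c0) < m (a • x + b • y) :=
      hyp_convex hlc hx' hy' ha hb hab
    rw [← add_mul, hab, one_mul, Real.exp_log hc0] at h1
    exact h1
  rw [nonempty_iff_ne_empty]
  intro he
  apply hpos
  have h1 := hcv.addHaar_frontier μ
  rw [frontier, he, sdiff_empty] at h1
  exact measure_mono_null subset_closure h1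

/-- the supporting functional -/
theorem support {μ : Measure V} [μ.IsAddHaarMeasure] {m : V → ℝ} (h0 : ∀ x, 0 ≤ m x)
    (hi : Integrable m μ) (hp : 0 < ∫ x, m x ∂μ)
    (hlc : ∀ x y, ∀ s : ℝ, 0 < s → s < 1 → m x ^ (1 - s) * m y ^ s ≤ m ((1 - s) • x + s • y))
    (hi1 : ∀ θ : V, Integrable (fun u => ⟪u, θ⟫_ℝ * m u) μ) {t0 : V}
    (hb : ∀ θ : V, ∫ u, ⟪u, θ⟫_ℝ * m u ∂μ = ⟪t0, θ⟫_ℝ * ∫ u, m u ∂μ) {r0 : ℝ}
    (hr : m t0 ≤ Real.exp r0) : ∃ v : V, ∀ u, m u ≤ Real.exp (r0 + ⟪u - t0, v⟫_ℝ) := by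
  have hA := hyp_convex hlc
  obtain ⟨c, hc, p1, hp1⟩ := exists_level h0 hp hlc
  have hsub : (interior {x | c < m x}) ×ˢ Iio (Real.log c) ⊆ interior (hyp m) := by
    refine interior_maximal ?_ (isOpen_interior.prod isOpen_Iio)
    rintro ⟨u, r⟩ ⟨h1, h2⟩
    have h1'' : u ∈ {x | c < m x} := interior_subset h1
    have h1' : c < m u := h1''
    have h2' : r < Real.log c := h2
    show Real.exp r < m u
    refine lt_trans ?_ h1'
    rw [← Real.exp_log hc]
    exact Real.exp_lt_exp.2 h2'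
  have hnot : (t0, r0) ∉ interior (hyp m) := fun h => by
    have h' : (t0, r0) ∈ hyp m := interior_subset h
    have : Real.exp r0 < m t0 := h'
    linarith
  obtain ⟨f, hf⟩ := geometric_hahn_banach_open_point hA.interior isOpen_interior hnot
  have hne : (interior (hyp m)).Nonempty :=
    ⟨(p1, Real.log c - 1), hsub ⟨hp1, by simp⟩⟩
  have hle : ∀ a ∈ hyp m, f a ≤ f (t0, r0) := by
    intro a ha
    have h1 : a ∈ closure (interior (hyp m)) := by
      rw [hA.closure_interior_eq_closure_of_nonempty_interior hne]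
      exact subset_closure ha
    have h2 : IsClosed {z : V × ℝ | f z ≤ f (t0, r0)} :=
      isClosed_le f.continuous continuous_const
    exact closure_minimal (fun z hz => (hf z hz).le) h2 h1
  obtain ⟨θ, hθ⟩ : ∃ θ : V, ∀ u : V, f (u, 0) = ⟪u, θ⟫_ℝ := by
    refine ⟨(InnerProductSpace.toDual ℝ V).symm (f.comp (ContinuousLinearMap.inl ℝ V ℝ)),
      fun u => ?_⟩
    rw [real_inner_comm, InnerProductSpace.toDual_symm_apply]
    rfl
  obtain ⟨β, hβ⟩ : ∃ β : ℝ, β = f (0, 1) := ⟨_, rfl⟩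
  have hfe : ∀ (u : V) (r : ℝ), f (u, r) = ⟪u, θ⟫_ℝ + β * r := by
    intro u r
    have h1 : (u, r) = (u, (0 : ℝ)) + r • ((0 : V), (1 : ℝ)) := by
      rw [Prod.smul_mk, smul_zero, Prod.mk_add_mk, add_zero, zero_add, smul_eq_mul, mul_one]
    rw [h1, map_add, map_smul, hθ, ← hβ, smul_eq_mul, mul_comm]
  have hβ0 : 0 ≤ β := by
    by_contra hneg
    push Not at hneg
    obtain ⟨r, hr1⟩ : ∃ r, r = min (Real.log c - 1) ((f (t0, r0) - ⟪p1, θ⟫_ℝ) / β) := ⟨_, rfl⟩
    have h1 : r < Real.log c := by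
      rw [hr1]
      exact lt_of_le_of_lt (min_le_left _ _) (by linarith)
    have h2 := hf (p1, r) (hsub ⟨hp1, h1⟩)
    rw [hfe p1 r] at h2
    have h3 : r ≤ (f (t0, r0) - ⟪p1, θ⟫_ℝ) / β := by
      rw [hr1]
      exact min_le_right _ _
    have h4 := mul_le_mul_of_nonpos_left h3 hneg.le
    rw [mul_div_cancel₀ _ hneg.ne] at h4
    linarith
  rcases eq_or_lt_of_le hβ0 with hβz | hβp
  · exfalso
    have hle' : ∀ u, 0 < m u → ⟪u, θ⟫_ℝ ≤ ⟪t0, θ⟫_ℝ := by
      intro u hu
      have h1 := hle (u, Real.log (m u) - 1) (by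
        show Real.exp (Real.log (m u) - 1) < m u
        have : Real.exp (Real.log (m u) - 1) < Real.exp (Real.log (m u)) :=
          Real.exp_lt_exp.2 (by linarith)
        rwa [Real.exp_log hu] at this)
      rw [hfe, hfe, ← hβz, zero_mul, zero_mul, add_zero, add_zero] at h1
      exact h1
    have hlt' : ∀ u ∈ interior {x | c < m x}, ⟪u, θ⟫_ℝ < ⟪t0, θ⟫_ℝ := by
      intro u hu
      have h1 := hf (u, Real.log c - 1) (hsub ⟨hu, by simp⟩)
      rw [hfe, hfe, ← hβz, zero_mul, zero_mul, add_zero, add_zero] at h1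
      exact h1
    have h1 : ∫ u, (⟪t0, θ⟫_ℝ * m u - ⟪u, θ⟫_ℝ * m u) ∂μ = 0 := by
      rw [integral_sub (hi.const_mul _) (hi1 θ), hb, integral_const_mul, sub_self]
    have h2 : ∀ u, 0 ≤ ⟪t0, θ⟫_ℝ * m u - ⟪u, θ⟫_ℝ * m u := by
      intro u
      rcases eq_or_lt_of_le (h0 u) with hu | hu
      · rw [← hu, mul_zero, mul_zero, sub_zero]
      · have := hle' u hu
        nlinarith
    rw [integral_eq_zero_iff_of_nonneg h2 ((hi.const_mul _).sub (hi1 θ))] at h1
    have h3 : μ (interior {x | c < m x}) = 0 := by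
      refine measure_mono_null (fun u hu => ?_) (ae_iff.1 h1)
      have h4 := hlt' u hu
      have h5' : u ∈ {x | c < m x} := interior_subset hu
      have h5 : c < m u := h5'
      show ¬ (⟪t0, θ⟫_ℝ * m u - ⟪u, θ⟫_ℝ * m u = 0)
      intro h6
      nlinarith
    exact (isOpen_interior.measure_pos μ ⟨p1, hp1⟩).ne' h3
  · refine ⟨-β⁻¹ • θ, fun u => ?_⟩
    rcases eq_or_lt_of_le (h0 u) with hu | hu
    · rw [← hu]
      exact (Real.exp_pos _).le
    rw [← Real.log_le_iff_le_exp hu]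
    refine le_of_forall_lt fun r hr' => ?_
    have h1 := hle (u, (r + Real.log (m u)) / 2) (by
      show Real.exp ((r + Real.log (m u)) / 2) < m u
      have : Real.exp ((r + Real.log (m u)) / 2) < Real.exp (Real.log (m u)) :=
        Real.exp_lt_exp.2 (by linarith)
      rwa [Real.exp_log hu] at this)
    rw [hfe, hfe] at h1
    have h2 : ⟪u - t0, -β⁻¹ • θ⟫_ℝ = β⁻¹ * (⟪t0, θ⟫_ℝ - ⟪u, θ⟫_ℝ) := by
      rw [inner_smul_right, inner_sub_left]
      ring
    rw [h2]
    have h3 : (r + Real.log (m u)) / 2 ≤ r0 + β⁻¹ * (⟪t0, θ⟫_ℝ - ⟪u, θ⟫_ℝ) := by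
      have h4 : β * ((r + Real.log (m u)) / 2) ≤ β * (r0 + β⁻¹ * (⟪t0, θ⟫_ℝ - ⟪u, θ⟫_ℝ)) := by
        rw [mul_add, mul_inv_cancel_left₀ hβp.ne']
        linarith
      exact le_of_mul_le_mul_left h4 hβp
    linarith

/-- the value at the barycentre -/
theorem bary {μ : Measure V} [μ.IsAddHaarMeasure] {m : V → ℝ} (h0 : ∀ x, 0 ≤ m x)
    (hi : Integrable m μ) (hp : 0 < ∫ x, m x ∂μ)
    (hlc : ∀ x y, ∀ s : ℝ, 0 < s → s < 1 → m x ^ (1 - s) * m y ^ s ≤ m ((1 - s) • x + s • y))
    (hi1 : ∀ θ : V, Integrable (fun u => ⟪u, θ⟫_ℝ * m u) μ) {t0 : V}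
    (hb : ∀ θ : V, ∫ u, ⟪u, θ⟫_ℝ * m u ∂μ = ⟪t0, θ⟫_ℝ * ∫ u, m u ∂μ) (t' : V) :
    m t' ≤ Real.exp (Module.finrank ℝ V) * m t0 := by
  -- it suffices to compare with all numbers above the value at the barycentre
  suffices H : ∀ R : ℝ, 0 < R → m t0 ≤ R → m t' ≤ Real.exp (Module.finrank ℝ V) * R by
    refine le_of_forall_pos_le_add fun ε hε => ?_
    have hE := Real.exp_pos (Module.finrank ℝ V : ℝ)
    have h1 := H (m t0 + ε / Real.exp (Module.finrank ℝ V)) (by
      have := h0 t0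
      positivity) (by
      have : 0 < ε / Real.exp (Module.finrank ℝ V) := by positivity
      linarith)
    rw [mul_add, mul_div_cancel₀ _ hE.ne'] at h1
    exact h1
  intro R hR hmR
  rcases eq_or_lt_of_le (h0 t') with ht' | ht'
  · rw [← ht']
    positivity
  have hr : m t0 ≤ Real.exp (Real.log R) := by
    rwa [Real.exp_log hR]
  obtain ⟨v, hv⟩ := support h0 hi hp hlc hi1 hb hr
  -- the inequality for each exponent
  have key : ∀ s : ℝ, 0 < s → s < 1 →
      (m t' / R) ^ (1 - s) ≤ (s ^ Module.finrank ℝ V)⁻¹ := by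
    intro s hs hs1
    have hs' : 0 < 1 - s := by linarith
    have hpt : ∀ u, (m t' / R) ^ (1 - s) * (m u - (1 - s) * (⟪u, v⟫_ℝ * m u - ⟪t0, v⟫_ℝ * m u)) ≤
        m ((1 - s) • t' + s • u) := by
      intro u
      rcases eq_or_lt_of_le (h0 u) with hu | hu
      · rw [← hu]
        simp only [mul_zero, sub_zero]
        exact h0 _
      refine le_trans ?_ (hlc t' u s hs hs1)
      obtain ⟨a, ha⟩ : ∃ a : ℝ, a = ⟪u - t0, v⟫_ℝ := ⟨_, rfl⟩
      have h1 : m u ^ (1 - s) ≤ R ^ (1 - s) * Real.exp ((1 - s) * a) := by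
        have h2 : m u ≤ R * Real.exp a := by
          have := hv u
          rwa [Real.exp_add, Real.exp_log hR, ← ha] at this
        refine (Real.rpow_le_rpow hu.le h2 hs'.le).trans (le_of_eq ?_)
        rw [Real.mul_rpow hR.le (Real.exp_pos _).le, ← Real.exp_mul, mul_comm a]
      have h2 : m u = m u ^ s * m u ^ (1 - s) := by
        rw [← Real.rpow_add hu, add_sub_cancel, Real.rpow_one]
      have h3 : 1 - (1 - s) * a ≤ Real.exp (-((1 - s) * a)) := by
        have := Real.add_one_le_exp (-((1 - s) * a))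
        linarith
      have hRs : 0 < R ^ (1 - s) := Real.rpow_pos_of_pos hR _
      have hus : 0 < m u ^ s := Real.rpow_pos_of_pos hu _
      have h4 : m u * (1 - (1 - s) * a) ≤ m u ^ s * R ^ (1 - s) := by
        calc m u * (1 - (1 - s) * a) ≤ m u * Real.exp (-((1 - s) * a)) :=
              mul_le_mul_of_nonneg_left h3 hu.le
          _ = m u ^ s * m u ^ (1 - s) * Real.exp (-((1 - s) * a)) := by rw [← h2]
          _ ≤ m u ^ s * (R ^ (1 - s) * Real.exp ((1 - s) * a)) * Real.exp (-((1 - s) * a)) := by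
              refine mul_le_mul_of_nonneg_right ?_ (Real.exp_pos _).le
              exact mul_le_mul_of_nonneg_left h1 hus.le
          _ = m u ^ s * R ^ (1 - s) * (Real.exp ((1 - s) * a) * Real.exp (-((1 - s) * a))) := by
              ring
          _ = m u ^ s * R ^ (1 - s) := by
              rw [← Real.exp_add, add_neg_cancel, Real.exp_zero, mul_one]
      have h5 : m u - (1 - s) * (⟪u, v⟫_ℝ * m u - ⟪t0, v⟫_ℝ * m u) = m u * (1 - (1 - s) * a) := by
        rw [ha, inner_sub_left]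
        ring
      rw [h5, Real.div_rpow ht'.le hR.le]
      have h6 : 0 < m t' ^ (1 - s) := Real.rpow_pos_of_pos ht' _
      calc m t' ^ (1 - s) / R ^ (1 - s) * (m u * (1 - (1 - s) * a))
          ≤ m t' ^ (1 - s) / R ^ (1 - s) * (m u ^ s * R ^ (1 - s)) :=
            mul_le_mul_of_nonneg_left h4 (by positivity)
        _ = m t' ^ (1 - s) * m u ^ s := by
            field_simp
    have hiA : Integrable (fun u => ⟪u, v⟫_ℝ * m u - ⟪t0, v⟫_ℝ * m u) μ :=
      (hi1 v).sub (hi.const_mul _)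
    have hiB : Integrable (fun u => (1 - s) * (⟪u, v⟫_ℝ * m u - ⟪t0, v⟫_ℝ * m u)) μ :=
      hiA.const_mul _
    have hint1 : Integrable (fun u => (m t' / R) ^ (1 - s) *
        (m u - (1 - s) * (⟪u, v⟫_ℝ * m u - ⟪t0, v⟫_ℝ * m u))) μ :=
      (hi.sub hiB).const_mul _
    have hint2 : Integrable (fun u => m ((1 - s) • t' + s • u)) μ :=
      (hi.comp_add_left ((1 - s) • t')).comp_smul hs.ne'
    have h1 := integral_mono hint1 hint2 hpt
    have h2 : ∫ u, m ((1 - s) • t' + s • u) ∂μ = (s ^ Module.finrank ℝ V)⁻¹ * ∫ u, m u ∂μ := by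
      have h3 := Measure.integral_comp_smul μ (fun x => m ((1 - s) • t' + x)) s
      rw [h3, integral_add_left_eq_self, abs_of_pos (by positivity), smul_eq_mul]
    rw [h2, integral_const_mul, integral_sub hi hiB,
      integral_const_mul, integral_sub (hi1 v) (hi.const_mul _), hb, integral_const_mul, sub_self,
      mul_zero, sub_zero] at h1
    exact le_of_mul_le_mul_right h1 hp
  obtain ⟨L, hL⟩ : ∃ L : ℝ, L = Real.log (m t' / R) := ⟨_, rfl⟩
  have hq : 0 < m t' / R := by positivity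
  have key2 : ∀ s : ℝ, 0 < s → s < 1 → s * L ≤ Module.finrank ℝ V := by
    intro s hs hs1
    have h1 := Real.log_le_log (Real.rpow_pos_of_pos hq _) (key s hs hs1)
    rw [Real.log_rpow hq, ← hL, Real.log_inv, Real.log_pow] at h1
    have h2 : -Real.log s ≤ s⁻¹ - 1 := by
      rw [← Real.log_inv]
      exact Real.log_le_sub_one_of_pos (by positivity)
    have h3 : (1 - s) * L ≤ Module.finrank ℝ V * (s⁻¹ - 1) := by
      have := mul_le_mul_of_nonneg_left h2 (Nat.cast_nonneg (α := ℝ) (Module.finrank ℝ V))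
      linarith
    have h4 : (1 - s) * (s * L) ≤ (1 - s) * Module.finrank ℝ V := by
      have h5 := mul_le_mul_of_nonneg_left h3 hs.le
      have h6 : s * (Module.finrank ℝ V * (s⁻¹ - 1)) = (1 - s) * Module.finrank ℝ V := by
        field_simp
      linarith
    exact le_of_mul_le_mul_left h4 (by linarith)
  have hLd : L ≤ Module.finrank ℝ V := by
    by_contra hcon
    push Not at hcon
    have hd : (0 : ℝ) ≤ Module.finrank ℝ V := Nat.cast_nonneg _
    have hL0 : 0 < L := by linarith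
    have h1 := key2 ((L + Module.finrank ℝ V) / (2 * L)) (by positivity) (by
      rw [div_lt_one (by positivity)]
      linarith)
    have h2 : (L + Module.finrank ℝ V) / (2 * L) * L = (L + Module.finrank ℝ V) / 2 := by
      field_simp
    rw [h2] at h1
    linarith
  have h1 : m t' / R ≤ Real.exp (Module.finrank ℝ V) := by
    rw [← Real.log_le_iff_le_exp hq, ← hL]
    exact hLd
  rwa [div_le_iff₀ hR] at h1

end abs

open Pool.Agent.R754.KG (E)
open Pool.Agent.N483.KM
open Pool.Agent.Y506.RG (EW Adm)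
open Pool.Agent.N383.KMW (haar_prod int_slice)

/-! ### sections of weights -/

section wt

variable {N j n : ℕ}

theorem exists_const (e : (E N × E j) ≃L[ℝ] E n) : ∃ c : NNReal, 0 < c ∧
    (volume : Measure (E n)) = c • Measure.map e volume := by
  have hvp : (volume : Measure (E N × E j)).IsAddHaarMeasure := haar_prod N j
  have hmap : (Measure.map e (volume : Measure (E N × E j))).IsAddHaarMeasure :=
    e.isAddHaarMeasure_map volume
  exact ⟨_, Measure.addHaarScalarFactor_pos_of_isAddHaarMeasure _ _,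
    Measure.isAddLeftInvariant_eq_smul volume (Measure.map e (volume : Measure (E N × E j)))⟩

theorem int_cv (e : (E N × E j) ≃L[ℝ] E n) {c : NNReal}
    (hc : (volume : Measure (E n)) = c • Measure.map e volume) (F : E n → ℝ) :
    ∫ z, F z = c * ∫ p, F (e p) := by
  have h1 : ∫ z, F z ∂(Measure.map e (volume : Measure (E N × E j))) = ∫ p, F (e p) :=
    e.toHomeomorph.measurableEmbedding.integral_map F
  rw [hc, integral_smul_nnreal_measure, h1]
  rfl

theorem int_iff (e : (E N × E j) ≃L[ℝ] E n) {c : NNReal} (hc0 : 0 < c)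
    (hc : (volume : Measure (E n)) = c • Measure.map e volume) {F : E n → ℝ}
    (hF : Integrable F) : Integrable fun p => F (e p) := by
  rw [hc] at hF
  have h1 : Integrable F (Measure.map e volume) := by
    have h2 : ((c : ℝ≥0∞)) ≠ 0 := by exact_mod_cast hc0.ne'
    exact (integrable_smul_measure h2 ENNReal.coe_ne_top).1 hF
  exact (e.toHomeomorph.measurableEmbedding.integrable_map_iff).1 h1

theorem marg_lc (e : (E N × E j) ≃ₗ[ℝ] E n) {w : E n → ℝ} (hw : LW w) (x y : E j) (s : ℝ)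
    (hs : 0 < s) (hs1 : s < 1) :
    (∫ a, w (e (a, x))) ^ (1 - s) * (∫ a, w (e (a, y))) ^ s ≤
      ∫ a, w (e (a, (1 - s) • x + s • y)) := by
  have hsl : ∀ t : E j, Integrable fun a : E N => w (e (a, t)) :=
    int_slice Pool.Agent.N438.KM.t_LWD e hw
  have he : Continuous e := e.toContinuousLinearEquiv.continuous
  have hme : ∀ t : E j, Measurable fun a : E N => ENNReal.ofReal (w (e (a, t))) := by
    intro t
    have h1 : Measurable fun a : E N => e (a, t) :=
      (he.comp (continuous_id.prodMk continuous_const)).measurable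
    exact (hw.adm.meas.comp h1).ennreal_ofReal
  have h0 : ∀ t : E j, 0 ≤ ∫ a, w (e (a, t)) := fun t => integral_nonneg fun a => hw.adm.nonneg _
  have heq : ∀ t : E j, ENNReal.ofReal (∫ a, w (e (a, t))) = ∫⁻ a, ENNReal.ofReal (w (e (a, t))) :=
    fun t => ofReal_integral_eq_lintegral_ofReal (hsl t)
      (Eventually.of_forall fun a => hw.adm.nonneg _)
  have h1 := Pool.Agent.H212R2.KLS.PL (volume : Measure (E N)) s hs hs1 _ _ _ (hme x) (hme y)
    (hme ((1 - s) • x + s • y)) (fun a b => by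
      rw [ENNReal.ofReal_rpow_of_nonneg (hw.adm.nonneg _) (by linarith),
        ENNReal.ofReal_rpow_of_nonneg (hw.adm.nonneg _) hs.le,
        ← ENNReal.ofReal_mul (Real.rpow_nonneg (hw.adm.nonneg _) _)]
      refine ENNReal.ofReal_le_ofReal ?_
      have h2 : e ((1 - s) • a + s • b, (1 - s) • x + s • y) =
          (1 - s) • e (a, x) + s • e (b, y) := by
        rw [← map_smul, ← map_smul, ← map_add]
        rfl
      rw [h2]
      exact hw.lc _ _ s hs hs1)
  rw [← heq, ← heq, ← heq, ENNReal.ofReal_rpow_of_nonneg (h0 _) (by linarith),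
    ENNReal.ofReal_rpow_of_nonneg (h0 _) hs.le, ← ENNReal.ofReal_mul (Real.rpow_nonneg (h0 _) _),
    ENNReal.ofReal_le_ofReal_iff (h0 _)] at h1
  exact h1

/-- Z4: the section over the barycentre is not much smaller than the others -/
theorem t_WBR : S_WBR := by
  intro N j n e w t hw hb t'
  have hwi : Integrable w := hw.adm.one
  have hvp : (volume : Measure (E N × E j)).IsAddHaarMeasure := haar_prod N j
  obtain ⟨c, hc0, hc⟩ := exists_const e.toContinuousLinearEquiv
  have he' : ∀ p, e.toContinuousLinearEquiv p = e p := fun p => rfl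
  have hc0' : (0 : ℝ) < c := by exact_mod_cast hc0
  have h0 : ∀ u : E j, 0 ≤ ∫ a, w (e (a, u)) := fun u => integral_nonneg fun a => hw.adm.nonneg _
  have hint : Integrable (fun p : E N × E j => w (e p)) (volume.prod volume) :=
    int_iff e.toContinuousLinearEquiv hc0 hc hwi
  have hmi : Integrable fun u : E j => ∫ a, w (e (a, u)) := hint.integral_prod_right
  have hmass : ∫ z, w z = c * ∫ u : E j, ∫ a, w (e (a, u)) := by
    rw [int_cv e.toContinuousLinearEquiv hc w]
    congr 1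
    exact integral_prod_symm _ hint
  have hpos : 0 < ∫ u : E j, ∫ a, w (e (a, u)) := by
    have h1 := hw.adm.pos
    rw [hmass] at h1
    exact (pos_iff_pos_of_mul_pos h1).1 hc0'
  have hFi : ∀ θ : E j, Integrable fun z => ⟪(e.symm z).2, θ⟫_ℝ * w z := by
    intro θ
    have hcs : Continuous fun z : E n => ⟪(e.symm z).2, θ⟫_ℝ := by
      have h1 : Continuous e.symm := e.toContinuousLinearEquiv.symm.continuous
      exact (continuous_snd.comp h1).inner continuous_const
    refine hw.adm.of_bd _ hcs.measurable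
      (‖(e.toContinuousLinearEquiv.symm : E n →L[ℝ] E N × E j)‖ * ‖θ‖) fun z => ?_
    have h1 := abs_real_inner_le_norm (e.symm z).2 θ
    have h2 : ‖(e.symm z).2‖ ≤ ‖e.symm z‖ := norm_snd_le _
    have h3 : ‖e.symm z‖ ≤ ‖(e.toContinuousLinearEquiv.symm : E n →L[ℝ] E N × E j)‖ * ‖z‖ :=
      (e.toContinuousLinearEquiv.symm : E n →L[ℝ] E N × E j).le_opNorm z
    have h4 : ‖z‖ ≤ 1 + ‖z‖ ^ 2 := by nlinarith [sq_nonneg (‖z‖ - 1)]
    calc |⟪(e.symm z).2, θ⟫_ℝ| ≤ ‖(e.symm z).2‖ * ‖θ‖ := h1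
      _ ≤ ‖(e.toContinuousLinearEquiv.symm : E n →L[ℝ] E N × E j)‖ * ‖z‖ * ‖θ‖ :=
          mul_le_mul_of_nonneg_right (h2.trans h3) (norm_nonneg _)
      _ = ‖(e.toContinuousLinearEquiv.symm : E n →L[ℝ] E N × E j)‖ * ‖θ‖ * ‖z‖ := by ring
      _ ≤ _ := mul_le_mul_of_nonneg_left h4 (by positivity)
  have hFp : ∀ θ : E j, Integrable (fun p : E N × E j => ⟪p.2, θ⟫_ℝ * w (e p))
      (volume.prod volume) := by
    intro θ
    have h1 := int_iff e.toContinuousLinearEquiv hc0 hc (hFi θ)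
    have h2 : (fun p : E N × E j => ⟪p.2, θ⟫_ℝ * w (e p)) =
        fun p => ⟪(e.symm (e.toContinuousLinearEquiv p)).2, θ⟫_ℝ *
          w (e.toContinuousLinearEquiv p) := by
      funext p
      rw [he', e.symm_apply_apply]
    rw [h2]
    exact h1
  have hm1 : ∀ θ : E j, Integrable fun u : E j => ⟪u, θ⟫_ℝ * ∫ a, w (e (a, u)) := by
    intro θ
    have h1 := (hFp θ).integral_prod_right
    have h2 : (fun u : E j => ⟪u, θ⟫_ℝ * ∫ a, w (e (a, u))) =
        fun u : E j => ∫ a : E N, ⟪(a, u).2, θ⟫_ℝ * w (e (a, u)) := by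
      funext u
      exact (integral_const_mul _ _).symm
    rw [h2]
    exact h1
  have hm2 : ∀ θ : E j, ∫ u : E j, ⟪u, θ⟫_ℝ * ∫ a, w (e (a, u)) =
      ⟪t, θ⟫_ℝ * ∫ u : E j, ∫ a, w (e (a, u)) := by
    intro θ
    have h1 := hb θ
    unfold EW at h1
    rw [div_eq_iff hw.adm.pos.ne', hmass, int_cv e.toContinuousLinearEquiv hc] at h1
    have h2 : ∫ p : E N × E j, ⟪(e.symm (e.toContinuousLinearEquiv p)).2, θ⟫_ℝ *
        w (e.toContinuousLinearEquiv p) = ∫ u : E j, ⟪u, θ⟫_ℝ * ∫ a, w (e (a, u)) := by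
      have h3 : (fun p : E N × E j => ⟪(e.symm (e.toContinuousLinearEquiv p)).2, θ⟫_ℝ *
          w (e.toContinuousLinearEquiv p)) = fun p : E N × E j => ⟪p.2, θ⟫_ℝ * w (e p) := by
        funext p
        rw [he', e.symm_apply_apply]
      rw [h3]
      refine (integral_prod_symm _ (hFp θ)).trans ?_
      refine integral_congr_ae (Eventually.of_forall fun u => ?_)
      show ∫ a : E N, ⟪u, θ⟫_ℝ * w (e (a, u)) = ⟪u, θ⟫_ℝ * ∫ a, w (e (a, u))
      exact integral_const_mul _ _
    rw [h2] at h1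
    have h4 : (c : ℝ) * (∫ u : E j, ⟪u, θ⟫_ℝ * ∫ a, w (e (a, u))) =
        c * (⟪t, θ⟫_ℝ * ∫ u : E j, ∫ a, w (e (a, u))) := by
      rw [h1]
      ring
    exact mul_left_cancel₀ hc0'.ne' h4
  have h1 := bary (μ := volume) (m := fun u : E j => ∫ a, w (e (a, u))) h0 hmi hpos
    (fun x y s hs hs1 => marg_lc e hw x y s hs hs1) hm1 hm2 t'
  rw [finrank_euclideanSpace_fin] at h1
  have h2 := mul_le_mul_of_nonneg_left h1 (Real.exp_pos (-(j : ℝ))).le
  rw [← mul_assoc, ← Real.exp_add, neg_add_cancel, Real.exp_zero, one_mul] at h2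
  exact h2

end wt

end Pool.Agent.N482.KM
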